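import Pool.Agent.Y7.LN.Stm
import Pool.Agent.Y5.O2

/-! Project LN (helper7), job LIPB: speeds of the modes of the backward chain. -/

open Set Filter Topology MeasureTheory Metric

set_option autoImplicit false

namespace Pool.Agent.Y492.LN

open Pool.Agent.Y5 (mono_of)
open Pool.Agent.Y6.N (src ph)
open Pool.Agent.Y303.EJ
open Pool.Agent.Y7.LN

section basics

variable {η : ℝ} {lm L C ℓ : ℕ → ℝ} {B : ℕ → ℕ → ℝ} {N : ℕ} {T : ℝ} {x R : ℕ → ℝ → ℝ}

theorem exp_neg_le {y : ℝ} (hy : 0 ≤ y) : Real.exp (-y) ≤ 1 / (y + 1) := by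
  rw [Real.exp_neg, inv_eq_one_div]
  exact one_div_le_one_div_of_le (by linarith) (Real.add_one_le_exp y)

theorem exp_small {y : ℝ} (hy : 10 ^ 6 ≤ y) : Real.exp (-y) ≤ 1 / 10 ^ 6 :=
  (exp_neg_le (by linarith)).trans (one_div_le_one_div_of_le (by norm_num) (by linarith))

theorem xle (h : Cb η lm L C ℓ B N T x R) (n : ℕ) {t : ℝ} (ht : t ∈ Ico 0 T) :
    |x n t| ≤ R n t := by
  apply abs_le_of_sq_le_sq _ (h.R0 n t ht)
  have h1 := h.Rsq n t ht
  nlinarith [sq_nonneg (R (n + 1) t)]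

theorem Rstep (h : Cb η lm L C ℓ B N T x R) (n : ℕ) {t : ℝ} (ht : t ∈ Ico 0 T) :
    R (n + 1) t ≤ R n t := by
  apply le_of_sq_le_sq _ (h.R0 n t ht)
  have h1 := h.Rsq n t ht
  nlinarith [sq_nonneg (x n t)]

theorem Rle1 (h : Cb η lm L C ℓ B N T x R) (n : ℕ) {t : ℝ} (ht : t ∈ Ico 0 T) : R n t ≤ 1 := by
  induction n with
  | zero => exact h.R1 t ht
  | succ n ih => exact (Rstep h n ht).trans ih

theorem Lpos (h : Cb η lm L C ℓ B N T x R) (n : ℕ) : 0 < L n :=
  lt_of_lt_of_le one_pos (h.nm.L1 n)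

theorem e0_pos : 0 < e0 lm := by
  unfold e0
  positivity

theorem e0_le (h : Cb η lm L C ℓ B N T x R) : e0 lm ≤ 1 / 10 ^ 30 := by
  have h1 := h.nm.e1
  have h2 : 1 ≤ L 0 + lm 0 := by
    have := h.nm.lm1 0
    have := h.nm.L1 0
    linarith
  have h3 := e0_pos (lm := lm)
  nlinarith

theorem Sg_le (h : Cb η lm L C ℓ B N T x R) (m : ℕ) {t : ℝ} (ht : t ∈ Ico 0 T) :
    |Sg L x m t| ≤ ∑ i ∈ Finset.range m, L i := by
  unfold Sg
  refine (Finset.abs_sum_le_sum_abs _ _).trans (Finset.sum_le_sum fun i _ => ?_)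
  rw [abs_mul, abs_of_pos (Lpos h i)]
  exact mul_le_of_le_one_right (Lpos h i).le ((xle h i ht).trans (Rle1 h i ht))

theorem src_le (h : Cb η lm L C ℓ B N T x R) (n : ℕ) {t : ℝ} (ht : t ∈ Ico 0 T) :
    src L C x (n + 1) t ≤ L n * C n := by
  unfold src
  rw [if_neg n.succ_ne_zero, Nat.add_sub_cancel]
  have h1 : x n t ^ 2 ≤ 1 := by
    have h2 := (xle h n ht).trans (Rle1 h n ht)
    have h3 := abs_nonneg (x n t)
    rw [← sq_abs]
    nlinarith
  exact mul_le_of_le_one_right (mul_nonneg (Lpos h n).le (h.nm.C0 n).le) h1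

/-- `exp (-(3/2) lm n)` beats polynomial quantities -/
theorem CL_le (h : Cb η lm L C ℓ B N T x R) (n : ℕ) {y : ℝ} (hy0 : 0 ≤ y)
    (hy : y ≤ Q η lm n) : C n * y ≤ Real.exp (-(lm n)) := by
  have e1 := h.nm.C1 n
  have e2 := h.nm.Qexp n 1 (-(3 / 2)) (-1) (by
    have := h.nm.d1 n
    push_cast
    linarith)
  have e3 : Real.exp (-(3 / 2 * lm n)) = Real.exp (-(3 / 2) * lm n) := by
    congr 1
    ring
  have e4 : Real.exp (-1 * lm n) = Real.exp (-(lm n)) := by
    congr 1
    ring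
  rw [pow_one, e4] at e2
  rw [e3] at e1
  calc C n * y ≤ Real.exp (-(3 / 2) * lm n) * Q η lm n :=
        mul_le_mul e1 hy hy0 (Real.exp_pos _).le
    _ ≤ _ := by rw [mul_comm]; exact e2

theorem big (h : Cb η lm L C ℓ B N T x R) (n : ℕ) : (10 : ℝ) ^ 7 ≤ lm n :=
  le_trans (by norm_num) (h.nm.lm1 n)

end basics

theorem t_LIPB : S_LIPB := by
  intro η lm L C ℓ B N T x R h a b ha hab hb
  have hI : Icc a b ⊆ Ico 0 T := fun t ht => ⟨ha.trans ht.1, ht.2.trans_lt hb⟩
  have hI' : Ioo a b ⊆ Ioo 0 T := fun t ht => ⟨ha.trans_lt ht.1, ht.2.trans hb⟩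
  constructor
  · intro n
    by_cases hn : n + 1 ≤ N
    · have hv : ∀ t ∈ Ioo a b, HasDerivAt (x (n + 1)) (deriv (x (n + 1)) t) t ∧
          deriv (x (n + 1)) t ≤ 2 * L n := by
        intro t ht
        obtain ⟨v, hv, hb⟩ := h.dx (n + 1) hn t (hI' ht)
        rw [hv.deriv]
        refine ⟨hv, ?_⟩
        have ht' := hI ⟨ht.1.le, ht.2.le⟩
        have hL := h.nm.L1 n
        have hL0 := Lpos h n
        have hL0' := Lpos h (n + 1)
        have hx1 := (xle h (n + 1) ht').trans (Rle1 h (n + 1) ht')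
        have hx0 := abs_nonneg (x (n + 1) t)
        have hR := Rle1 h (n + 1 + 1) ht'
        have hR0 := h.R0 (n + 1 + 1) t ht'
        have hR2 : R (n + 1 + 1) t ^ 2 ≤ 1 := by nlinarith
        have hR20 := sq_nonneg (R (n + 1 + 1) t)
        have b1 : |Sg L x (n + 1) t * x (n + 1) t| ≤ 101 / 100 * L n := by
          rw [abs_mul]
          exact (mul_le_of_le_one_right (abs_nonneg _) hx1).trans
            ((Sg_le h (n + 1) ht').trans (h.nm.Lsum n))
        have b2 : src L C x (n + 1) t ≤ L n / 10 := by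
          have e1 := src_le h n ht'
          have e2 : C n ≤ 1 / 10 := by
            refine (h.nm.C1 n).trans ((exp_small ?_).trans (by norm_num))
            have := big h n
            linarith
          have e3 : L n * C n ≤ L n * (1 / 10) := mul_le_mul_of_nonneg_left e2 hL0.le
          linarith
        have b3 : |ℓ (n + 1) * x (n + 1) t| ≤ L n / 10 := by
          have e0 := h.sq.ℓ_nonneg (n + 1)
          rw [abs_mul, abs_of_nonneg e0]
          have e1 := h.sq.ℓ_succ n
          have e2 := h.nm.d1 (n + 1)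
          have e3 := h.nm.d0 (n + 1)
          have e4 : dl η (n + 1) ^ 4 ≤ 1 := pow_le_one₀ e3.le (by linarith)
          have e5 : dl η (n + 1) ^ 4 * L n ≤ 1 * L n := mul_le_mul_of_nonneg_right e4 hL0.le
          have e6 : ℓ (n + 1) * |x (n + 1) t| ≤ ℓ (n + 1) * 1 := mul_le_mul_of_nonneg_left hx1 e0
          linarith
        have b4 : 0 ≤ L (n + 1) * R (n + 1 + 1) t ^ 2 := mul_nonneg hL0'.le hR20
        have c1 : e0 lm * |x (n + 1) t| ≤ L n / 10 := by
          have e1 := e0_le h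
          have e2 : e0 lm * |x (n + 1) t| ≤ e0 lm * 1 := mul_le_mul_of_nonneg_left hx1 e0_pos.le
          have e3 : (1 : ℝ) / 10 ^ 30 ≤ 1 / 10 := by norm_num
          linarith
        have c2 : C (n + 1) * L (n + 1) * |x (n + 1) t| * R (n + 1 + 1) t ≤ L n / 10 := by
          have e1 : C (n + 1) * L (n + 1) ≤ 1 / 10 :=
            (CL_le h (n + 1) hL0'.le (h.nm.QL (n + 1) (n + 1) (by omega))).trans
              ((exp_small (by have := big h (n + 1); linarith)).trans (by norm_num))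
          have e3 : 0 ≤ C (n + 1) * L (n + 1) := mul_nonneg (h.nm.C0 _).le hL0'.le
          have e4 : C (n + 1) * L (n + 1) * |x (n + 1) t| ≤ C (n + 1) * L (n + 1) :=
            mul_le_of_le_one_right e3 hx1
          have e5 : C (n + 1) * L (n + 1) * |x (n + 1) t| * R (n + 1 + 1) t ≤
              C (n + 1) * L (n + 1) * |x (n + 1) t| :=
            mul_le_of_le_one_right (mul_nonneg e3 hx0) hR
          linarith
        have c3 : Real.exp (-(lm (n + 1 + 1) / 2)) * R (n + 1 + 1) t ^ 2 ≤ L n / 10 := by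
          have e1 : Real.exp (-(lm (n + 1 + 1) / 2)) ≤ 1 / 10 :=
            (exp_small (by have := big h (n + 1 + 1); linarith)).trans (by norm_num)
          have e2 := mul_le_of_le_one_right (Real.exp_pos (-(lm (n + 1 + 1) / 2))).le hR2
          linarith
        have c4 : ph lm (n + 1) ≤ L n / 10 := by
          have e1 : ph lm (n + 1) ≤ 1 / 10 :=
            (exp_small (by have := big h (n + 1); linarith)).trans (by norm_num)
          linarith
        have d1 := (abs_le.1 hb).2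
        have d2 := (abs_le.1 b1).2
        have d3 := (abs_le.1 b3).1
        linarith
      have m1 := mono_of (f := fun t => 2 * L n * t - x (n + 1) t)
        (f' := fun t => 2 * L n - deriv (x (n + 1)) t)
        hab (ContinuousOn.sub (by fun_prop) ((h.cx (n + 1)).mono hI))
        (fun t ht => HasDerivAt.sub (by simpa using (hasDerivAt_id t).const_mul (2 * L n))
          (hv t ht).1)
        (fun t ht => by linarith [(hv t ht).2])
      linarith
    · have e1 := (h.zero (n + 1) (by omega) a (hI ⟨le_rfl, hab⟩)).1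
      have e2 := (h.zero (n + 1) (by omega) b (hI ⟨hab, le_rfl⟩)).1
      rw [e1, e2]
      have := mul_nonneg (mul_nonneg zero_le_two (Lpos h n).le) (sub_nonneg.2 hab)
      linarith
  · set K : ℝ := ℓ 0 + e0 lm + C 0 * L 0 + ph lm 0 with hK
    have hL := h.nm.L1 0
    have hL0 := Lpos h 0
    have hlm := big h 0
    have hℓ := h.sq.ℓ_nonneg 0
    have hC0 := h.nm.C0 0
    have he0 := e0_pos (lm := lm)
    have hv : ∀ t ∈ Ioo a b, HasDerivAt (x 0) (deriv (x 0) t) t ∧ deriv (x 0) t ≤ K := by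
      intro t ht
      obtain ⟨v, hv, hb⟩ := h.dx 0 (Nat.zero_le _) t (hI' ht)
      rw [hv.deriv]
      refine ⟨hv, ?_⟩
      have ht' := hI ⟨ht.1.le, ht.2.le⟩
      have hx1 := (xle h 0 ht').trans (Rle1 h 0 ht')
      have hx0 := abs_nonneg (x 0 t)
      have hR := Rle1 h (0 + 1) ht'
      have hR0 := h.R0 (0 + 1) t ht'
      have hR20 := sq_nonneg (R (0 + 1) t)
      have a1 : Sg L x 0 t = 0 := by
        unfold Sg
        simp
      have a2 : src L C x 0 t = 0 := by
        unfold src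
        rw [if_pos rfl]
      rw [a1, a2] at hb
      have b3 : |ℓ 0 * x 0 t| ≤ ℓ 0 := by
        rw [abs_mul, abs_of_nonneg hℓ]
        exact mul_le_of_le_one_right hℓ hx1
      have c1 : e0 lm * |x 0 t| ≤ e0 lm := mul_le_of_le_one_right he0.le hx1
      have c2 : C 0 * L 0 * |x 0 t| * R (0 + 1) t ≤ C 0 * L 0 := by
        have e3 : 0 ≤ C 0 * L 0 := mul_nonneg hC0.le hL0.le
        exact (mul_le_of_le_one_right (mul_nonneg e3 hx0) hR).trans
          (mul_le_of_le_one_right e3 hx1)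
      have c3 : Real.exp (-(lm (0 + 1) / 2)) * R (0 + 1) t ^ 2 ≤ L 0 * R (0 + 1) t ^ 2 := by
        refine mul_le_mul_of_nonneg_right ?_ hR20
        refine le_trans ?_ hL
        exact Real.exp_le_one_iff.2 (by have := big h (0 + 1); linarith)
      have d1 := (abs_le.1 hb).2
      have d3 := (abs_le.1 b3).1
      rw [zero_mul] at d1
      linarith
    have m1 := mono_of (f := fun t => K * t - x 0 t) (f' := fun t => K - deriv (x 0) t)
      hab (ContinuousOn.sub (by fun_prop) ((h.cx 0).mono hI))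
      (fun t ht => HasDerivAt.sub (by simpa using (hasDerivAt_id t).const_mul K) (hv t ht).1)
      (fun t ht => by linarith [(hv t ht).2])
    have hD0 : 0 ≤ b - a := sub_nonneg.2 hab
    have hDT : b - a ≤ T := by linarith
    have hLD : L 0 * (b - a) ≤ lm 0 := (mul_le_mul_of_nonneg_left hDT hL0.le).trans h.hT1
    have hDl : b - a ≤ lm 0 := by nlinarith
    have k1 : ℓ 0 * (b - a) ≤ 1 / 10 ^ 4 := by
      have e1 : ℓ 0 * (L 0 * (b - a)) ≤ ℓ 0 * lm 0 := mul_le_mul_of_nonneg_left hLD hℓ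
      have e2 := h.sq.ℓ_zero
      have e3 : dl η 0 ^ 4 ≤ 1 := pow_le_one₀ (h.nm.d0 0).le (by linarith [h.nm.d1 0])
      have e4 : dl η 0 ^ 4 * L 0 ≤ 1 * L 0 := mul_le_mul_of_nonneg_right e3 hL0.le
      have e5 : L 0 * (10 ^ 6 * (ℓ 0 * (b - a))) ≤ L 0 * 1 := by nlinarith
      have e6 := le_of_mul_le_mul_left e5 hL0
      linarith
    have k2 : e0 lm * (b - a) ≤ 1 / 10 ^ 4 := by
      have e1 := h.nm.e1
      have e2 : e0 lm * (b - a) ≤ e0 lm * (L 0 + lm 0) :=
        mul_le_mul_of_nonneg_left (by linarith) he0.le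
      have e3 : (1 : ℝ) / 10 ^ 30 ≤ 1 / 10 ^ 4 := by norm_num
      linarith
    have k3 : C 0 * L 0 * (b - a) ≤ 1 / 10 ^ 4 := by
      have e1 : C 0 * (L 0 * (b - a)) ≤ C 0 * lm 0 := mul_le_mul_of_nonneg_left hLD hC0.le
      have e2 := CL_le h 0 (by linarith : (0 : ℝ) ≤ lm 0) (h.nm.Qlm 0 0 (by omega))
      have e3 : Real.exp (-(lm 0)) ≤ 1 / 10 ^ 6 := exp_small (by linarith)
      have e4 : (1 : ℝ) / 10 ^ 6 ≤ 1 / 10 ^ 4 := by norm_num
      linarith
    have k4 : ph lm 0 * (b - a) ≤ 1 / 10 ^ 4 := by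
      have e1 : ph lm 0 * (b - a) ≤ Real.exp (-1 * lm 0) * Q η lm 0 := by
        have e0 : ph lm 0 = Real.exp (-1 * lm 0) := by
          unfold ph
          congr 1
          ring
        rw [e0]
        exact mul_le_mul_of_nonneg_left (hDl.trans (h.nm.Qlm 0 0 (by omega))) (Real.exp_pos _).le
      have e2 := h.nm.Qexp 0 1 (-1) (-(1 / 2)) (by
        have := h.nm.d1 0
        push_cast
        linarith)
      rw [pow_one] at e2
      have e3 : Real.exp (-(1 / 2) * lm 0) ≤ 1 / 10 ^ 6 := by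
        have e5 : Real.exp (-(1 / 2) * lm 0) = Real.exp (-(lm 0 / 2)) := by
          congr 1
          ring
        rw [e5]
        exact exp_small (by linarith)
      have e4 : (1 : ℝ) / 10 ^ 6 ≤ 1 / 10 ^ 4 := by norm_num
      linarith
    have k5 : K * (b - a) ≤ 4 / 10 ^ 4 := by
      rw [hK]
      have : (ℓ 0 + e0 lm + C 0 * L 0 + ph lm 0) * (b - a) = ℓ 0 * (b - a) + e0 lm * (b - a) +
          C 0 * L 0 * (b - a) + ph lm 0 * (b - a) := by ring
      rw [this]
      linarith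
    norm_num at k5 ⊢
    linarith

end Pool.Agent.Y492.LN
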